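import Pool.Agent.TH773.ST.ComT
import Pool.Agent.H122R2.N6.KK
import Pool.Agent.H122R2.N6.SymDefs
import Pool.Agent.H37R3.Cnt

/-! Common parts of the certificates: rows of tables, checks, and the sum inequality. -/

set_option autoImplicit false
set_option maxRecDepth 100000
set_option maxHeartbeats 4000000
open Finset

namespace Pool.Agent.Run7.h211.PW
open Pool.Agent.H122R2.N6 Pool.Agent.H37R3.Pen Pool.Agent.H37R3.Cop Pool.Agent.H37R3.CopL
open Pool.Agent.TH773.ST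

def TP : ℕ := 0x3f3b2f2b1f1b0f0b3e3a2e2a1e1a0e0a3d392d291d190d093c382c281c180c0837332723171307033632262216120602353125211511050134302420141004003f3b3e3a3d393c382f2b2e2a2d292c281f1b1e1a1d191c180f0b0e0a0d090c0837333632353134302723262225212420171316121511141007030602050104003f1f3d1d371735153b1b3919331331112f0f2d0d270725052b0b2909230321013e1e3c1c361634143a1a3818321230102e0e2c0c260624042a0a2808220220003f3e3b3a3d3c39382f2e2b2a2d2c2928373633323534313027262322252421201f1e1b1a1d1c19180f0e0b0a0d0c0908171613121514111007060302050401003f3d1f1d373517153b391b19333113113e3c1e1c363416143a381a18323012102f2d0f0d272507052b290b09232103012e2c0e0c262406042a280a08222002003f3d3b393e3c3a381f1d1b191e1c1a18373533313634323017151311161412102f2d2b292e2c2a280f0d0b090e0c0a08272523212624222007050301060402003f372f273e362e261f170f071e160e063d352d253c342c241d150d051c140c043b332b233a322a221b130b031a120a02393129213830282019110901181008003f3e3d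3c3b3a393837363534333231302f2e2d2c2b2a292827262524232221201f1e1d1c1b1a191817161514131211100f0e0d0c0b0a090807060504030201003f3d37351f1d17153e3c36341e1c16143b3933311b1913113a3832301a1812102f2d27250f0d07052e2c26240e0c06042b2923210b0903012a2822200a0802003f3d3e3c3b393a3837353634333132301f1d1e1c1b191a1817151614131112102f2d2e2c2b292a2827252624232122200f0d0e0c0b090a0807050604030102003f373e362f272e263d353c342d252c241f171e160f070e061d151c140d050c043b333a322b232a2239313830292128201b131a120b030a0219111810090108003f3e3d3c3b3a393837363534333231302f2e2d2c2b2a292827262524232221201f1e1d1c1b1a191817161514131211100f0e0d0c0b0a090807060504030201003f3e37362f2e27263d3c35342d2c25243b3a33322b2a232239383130292821201f1e17160f0e07061d1c15140d0c05041b1a13120b0a030219181110090801003f3e3d3c3b3a393837363534333231302f2e2d2c2b2a292827262524232221201f1e1d1c1b1a191817161514131211100f0e0d0c0b0a090807060504030201003f3e3d3c3b3a393837363534333231302f2e2d2c2b2a292827262524232221201f1e1d1c1b1a191817161514131211100f0e0d0c0b0a09080706050403020100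
def RT : ℕ := 0x332322132212110

def rho (c : ℕ) : ℕ := Nat.mod (Nat.shiftRight RT (Nat.mul 4 c)) 16
def pc (c i : ℕ) : ℕ := Nat.mod (Nat.shiftRight TP (Nat.mul 8 (Nat.add (Nat.mul 64 c) i))) 256

/-- the value of a quadratic form from its table -/
def q4G (tq : ℕ → ℕ → ℕ → ℕ) (c i j : ℕ) : ℕ := tq (rho c) (pc c i) (pc c j)

def swG (w4 : ℕ → ℕ → ℕ) (r : ℕ) : ℕ := nsum 78 fun k => w4 r k
def slG (w4 : ℕ → ℕ → ℕ) (l4 : ℕ → ℕ → ℕ → ℕ) (r i : ℕ) : ℕ :=
  nsum 78 fun k => Nat.mul (w4 r k) (l4 r i k)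
def llG (w4 : ℕ → ℕ → ℕ) (l4 : ℕ → ℕ → ℕ → ℕ) (r i j : ℕ) : ℕ :=
  nsum 78 fun k => Nat.mul (w4 r k) (Nat.mul (l4 r i k) (l4 r j k))

/-- an entry of the table is given by the squares -/
def g4G (tq : ℕ → ℕ → ℕ → ℕ) (w4 : ℕ → ℕ → ℕ) (l4 : ℕ → ℕ → ℕ → ℕ) (r i j : ℕ) : Bool :=
  Nat.beq (Nat.add (llG w4 l4 r i j) (Nat.add (Nat.mul 67108864 (swG w4 r)) 4611686018427387904))
    (Nat.add (tq r i j) (Nat.mul 8192 (Nat.add (slG w4 l4 r i) (slG w4 l4 r j))))

def sw2G (w2 : ℕ → ℕ) : ℕ := nsum 16 fun k => w2 k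
def sl2G (w2 : ℕ → ℕ) (l2 : ℕ → ℕ → ℕ) (i : ℕ) : ℕ := nsum 16 fun k => Nat.mul (w2 k) (l2 i k)
def ll2G (w2 : ℕ → ℕ) (l2 : ℕ → ℕ → ℕ) (i j : ℕ) : ℕ :=
  nsum 16 fun k => Nat.mul (w2 k) (Nat.mul (l2 i k) (l2 j k))
def g2G (q2 : ℕ → ℕ → ℕ) (w2 : ℕ → ℕ) (l2 : ℕ → ℕ → ℕ) (i j : ℕ) : Bool :=
  Nat.beq (Nat.add (ll2G w2 l2 i j) (Nat.add (Nat.mul 67108864 (sw2G w2))
    (Nat.add 4611686018427387904 (Nat.mul 80000000000000100 (kk i j)))))
    (Nat.add (q2 i j) (Nat.mul 8192 (Nat.add (sl2G w2 l2 i) (sl2G w2 l2 j))))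

def chk4G (tq : ℕ → ℕ → ℕ → ℕ) (w4 : ℕ → ℕ → ℕ) (l4 : ℕ → ℕ → ℕ → ℕ) (r : ℕ) : Bool :=
  nall 64 fun i => nall 64 fun j => g4G tq w4 l4 r i j
def chk2G (q2 : ℕ → ℕ → ℕ) (w2 : ℕ → ℕ) (l2 : ℕ → ℕ → ℕ) : Bool :=
  nall 16 fun i => nall 16 fun j => g2G q2 w2 l2 i j

theorem rng : (nall 16 fun c => and (Nat.blt (rho c) 4)
    (nall 64 fun i => Nat.blt (pc c i) 64)) = true := by
  decide +kernel

theorem rho_lt {c : ℕ} (h : c < 16) : rho c < 4 := by
  have := nall_true rng c h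
  rw [Bool.and_eq_true] at this
  exact Nat.le_of_ble_eq_true this.1

theorem pc_lt {c i : ℕ} (h : c < 16) (hi : i < 64) : pc c i < 64 := by
  have := nall_true rng c h
  rw [Bool.and_eq_true] at this
  exact Nat.le_of_ble_eq_true (nall_true this.2 i hi)

theorem expand (s : Finset ℕ) (w u v : ℕ → ℕ) (B : ℤ) :
    ∑ k ∈ s, (w k : ℤ) * ((u k : ℤ) - B) * ((v k : ℤ) - B) =
      ∑ k ∈ s, (w k : ℤ) * ((u k : ℤ) * (v k : ℤ)) + B ^ 2 * ∑ k ∈ s, (w k : ℤ)
        - B * (∑ k ∈ s, (w k : ℤ) * (u k : ℤ) + ∑ k ∈ s, (w k : ℤ) * (v k : ℤ)) := by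
  rw [mul_add, mul_sum, mul_sum, mul_sum, ← sum_add_distrib, ← sum_add_distrib, ← sum_sub_distrib]
  exact sum_congr rfl fun k _ => by ring

theorem hq4G {tq : ℕ → ℕ → ℕ → ℕ} {w4 : ℕ → ℕ → ℕ} {l4 : ℕ → ℕ → ℕ → ℕ}
    (h4 : ∀ r, r < 4 → chk4G tq w4 l4 r = true) (c i j : ℕ) (hc : c < 16) (hi : i < 64)
    (hj : j < 64) : (q4G tq c i j : ℤ) =
    ∑ k ∈ range 78, (w4 (rho c) k : ℤ) * ((l4 (rho c) (pc c i) k : ℤ) - 8192) *
      ((l4 (rho c) (pc c j) k : ℤ) - 8192) + 4611686018427387904 := by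
  have h := Nat.eq_of_beq_eq_true (nall_true (nall_true (h4 _ (rho_lt hc)) _ (pc_lt hc hi)) _
    (pc_lt hc hj))
  unfold llG swG slG at h
  rw [nsum_eq, nsum_eq, nsum_eq, nsum_eq] at h
  have h2 := congrArg (fun n : ℕ => (n : ℤ)) h
  simp only [Nat.add_eq, Nat.mul_eq] at h2
  push_cast at h2
  rw [expand (range 78) (fun k => w4 (rho c) k) (fun k => l4 (rho c) (pc c i) k)
    (fun k => l4 (rho c) (pc c j) k) 8192]
  have h3 : (q4G tq c i j : ℤ) = (tq (rho c) (pc c i) (pc c j) : ℤ) := rfl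
  rw [h3]
  linarith

theorem hq2G {q2 : ℕ → ℕ → ℕ} {w2 : ℕ → ℕ} {l2 : ℕ → ℕ → ℕ} (h2 : chk2G q2 w2 l2 = true)
    (i j : ℕ) (hi : i < 16) (hj : j < 16) : (q2 i j : ℤ) =
    ∑ k ∈ range 16, (w2 k : ℤ) * ((l2 i k : ℤ) - 8192) * ((l2 j k : ℤ) - 8192)
      + (4611686018427387904 + ((80000000000000100 : ℕ) : ℤ) * ((kk i j : ℕ) : ℤ)) := by
  have h := Nat.eq_of_beq_eq_true (nall_true (nall_true h2 i hi) j hj)
  unfold ll2G sw2G sl2G at h
  rw [nsum_eq, nsum_eq, nsum_eq, nsum_eq] at h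
  have h2 := congrArg (fun n : ℕ => (n : ℤ)) h
  simp only [Nat.add_eq, Nat.mul_eq] at h2
  push_cast at h2
  rw [expand (range 16) (fun k => w2 k) (fun k => l2 i k) (fun k => l2 j k) 8192]
  push_cast
  linarith

/-- the check for the structures with given values of the first two triples -/
noncomputable def partG (tq : ℕ → ℕ → ℕ → ℕ) (q2 : ℕ → ℕ → ℕ) (LS : List ℕ) (b012 b013 : ℕ) : Bool :=
  B2 fun b023 => B2 fun b123 => B2 fun b014 => B2 fun b024 => B2 fun b124 => B2 fun b034 =>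
  B2 fun b134 => B2 fun b234 => or (not (Nat.beq (tg b012 b013 b023 b123 b014 b024 b124 b034 b134 b234) 4))
    (chkS (q4G tq) q2 284701161105643284240 8648000000000010810 1600000000000002 LT LS
      b012 b013 b023 b123 b014 b024 b124 b034 b134 b234)

theorem hcG {tq : ℕ → ℕ → ℕ → ℕ} {q2 : ℕ → ℕ → ℕ} {LS : List ℕ}
    (hp : ∀ b012 b013 : ℕ, Bt b012 → Bt b013 → partG tq q2 LS b012 b013 = true)
    (b012 b013 b023 b123 b014 b024 b124 b034 b134 b234 : ℕ) (hb012 : Bt b012) (hb013 : Bt b013)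
    (hb023 : Bt b023) (hb123 : Bt b123) (hb014 : Bt b014) (hb024 : Bt b024) (hb124 : Bt b124)
    (hb034 : Bt b034) (hb134 : Bt b134) (hb234 : Bt b234)
    (ht : tg b012 b013 b023 b123 b014 b024 b124 b034 b134 b234 = 4) :
    chkS (q4G tq) q2 284701161105643284240 8648000000000010810 1600000000000002 LT LS
      b012 b013 b023 b123 b014 b024 b124 b034 b134 b234 = true := by
  have h := hp b012 b013 hb012 hb013
  have h2 := (B2_true (B2_true (B2_true (B2_true (B2_true (B2_true (B2_true (B2_true h hb023) hb123) hb014) hb024) hb124) hb034) hb134) hb234)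
  refine or_false_left h2 ?_
  rw [ht]
  rfl

/-- all parts of a certificate for the masks `M` -/
structure Ok (M : List ℕ) : Prop where
  ex : ∃ (tq : ℕ → ℕ → ℕ → ℕ) (w4 : ℕ → ℕ → ℕ) (l4 : ℕ → ℕ → ℕ → ℕ) (q2 : ℕ → ℕ → ℕ) (w2 : ℕ → ℕ)
    (l2 : ℕ → ℕ → ℕ) (LS : List ℕ) (TB : List (ℕ × ℕ × ℕ)),
    (∀ r, r < 4 → chk4G tq w4 l4 r = true) ∧ chk2G q2 w2 l2 = true ∧ sym4 (q4G tq) = true ∧
    sym2 q2 = true ∧ (∀ b012 b013 : ℕ, Bt b012 → Bt b013 → partG tq q2 LS b012 b013 = true) ∧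
    isoM LS TB M = true

/-- the inequality of a certificate -/
def Cert (V : Type) [Fintype V] (E : V → V → V → ℕ) (M : List ℕ) : Prop :=
  9000 * Fintype.card V ^ 3 * (∑ a, ∑ b, ∑ c, E a b c) + NT E ≤
      5000 * Fintype.card V ^ 6 + 5405 * ∑ x : Fin 6 → V, XL E M x

theorem Ok.cert {M : List ℕ} (h : Ok M) {V : Type} [Fintype V] {E : V → V → V → ℕ} (hE : Sy E)
    (hK : NoK4 E) : Cert V E M := by
  obtain ⟨tq, w4, l4, q2, w2, l2, LS, TB, h4, h2, s4, s2, hp, iN⟩ := h.ex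
  have h := slack_gen (E := E) hE hK (K := 78) (K2 := 16) (T := 80000000000000100)
    (C := 284701161105643284240) (P := 8648000000000010810) (s := 1600000000000002)
    (D := 8000000000000010000) (B := 8192) (W := fun c k => w4 (rho c) k)
    (l := fun c i k => l4 (rho c) (pc c i) k)
    (by decide) (hq4G h4) (hq2G h2) s4 s2 (hcG hp) isoT iN (by decide)
  unfold Cert
  generalize (∑ x : Fin 6 → V, XL E M x) = X at h ⊢
  have e2 : 180 * 80000000000000100 * Fintype.card V ^ 3 * (∑ a, ∑ b, ∑ c, E a b c) =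
      14400000000000018000 * (Fintype.card V ^ 3 * (∑ a, ∑ b, ∑ c, E a b c)) := by ring
  rw [e2] at h
  rw [mul_assoc]
  generalize Fintype.card V ^ 3 * (∑ a, ∑ b, ∑ c, E a b c) = Y at h ⊢
  generalize NT E = Z at h ⊢
  generalize Fintype.card V ^ 6 = W at h ⊢
  omega

end Pool.Agent.Run7.h211.PW
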