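import Pool.Agent.Run7.h211.PW.All
import Pool.Agent.TH773.ST.Hyp
import Pool.Agent.TH773.FA.Cpy

/-! The stability inequality for pairs of structures, with one colouring for all pairs. -/

set_option autoImplicit false
set_option maxRecDepth 100000
set_option maxHeartbeats 4000000
open Finset
open scoped Classical

namespace Pool.Agent.Run7.h211.PW
open Pool.Agent.H122R2.N6 Pool.Agent.H37R3.Pen Pool.Agent.H37R3.Cop Pool.Agent.H37R3.CopL
open Pool.Agent.TH773 Pool.Agent.TH773.ST

section
variable {V : Type} [Fintype V] {E : V → V → V → ℕ}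

/-- stability, in terms of functions, with a colouring which does not depend on the list -/
theorem stab2 (hE : Sy E) (hK : NoK4 E) :
    ∃ g : V → Fin 3, ∀ M : List ℕ, Cert V E M → Fintype.card V ^ 3 * bad E g +
      5806080000 * (Fintype.card V ^ 3 * (∑ a, ∑ b, ∑ c, E a b c)) ≤
      3225600000 * Fintype.card V ^ 6 + 3486873600 * ∑ x : Fin 6 → V, XL E M x := by
  obtain ⟨g, hg⟩ := exists_col (E := E)
  refine ⟨g, fun M h => ?_⟩
  unfold Cert at h
  have h1 := seeds_card hE hK
  generalize (∑ x : Fin 6 → V, XL E M x) = X at h ⊢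
  have hb := bad_le (E := E) g
  rw [mul_assoc] at h h1
  generalize (∑ a, ∑ b, ∑ c, E a b c) = S at h h1 ⊢
  generalize bad E g = b at hg hb ⊢
  generalize (Seeds E).card = q at hg h1
  generalize NT E = N at hg h
  generalize Fintype.card V = n at hg h h1 hb ⊢
  by_cases hc : n ^ 3 * S * 1000 ≤ 550 * n ^ 6
  · have h2 : n ^ 3 * b ≤ n ^ 6 := by
      calc n ^ 3 * b ≤ n ^ 3 * n ^ 3 := Nat.mul_le_mul_left _ hb
        _ = n ^ 6 := by ring
    generalize n ^ 3 * b = B at h2 ⊢
    generalize n ^ 3 * S = Y at h hc ⊢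
    generalize n ^ 6 = W at h hc h2 ⊢
    omega
  · push Not at hc
    rcases Nat.eq_zero_or_pos n with hn | hn
    · subst hn
      simp only [Nat.zero_pow (n := 3) (by norm_num), Nat.zero_pow (n := 6) (by norm_num), zero_mul, mul_zero, lt_irrefl] at hc
    have h3 : 5 * n ^ 6 < 460800 * (q * n) := by
      generalize n ^ 3 * S = Y at hc h1
      generalize n ^ 6 = W at hc h1 ⊢
      generalize q * n = Z at h1 ⊢
      omega
    have h4 : 5 * n ^ 5 ≤ 460800 * q := by
      have h5 : (5 * n ^ 5) * n ≤ (460800 * q) * n := by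
        calc (5 * n ^ 5) * n = 5 * n ^ 6 := by ring
          _ ≤ 460800 * (q * n) := h3.le
          _ = (460800 * q) * n := by ring
      exact Nat.le_of_mul_le_mul_right h5 hn
    have h6 : n ^ 3 * b ≤ 645120 * N := by
      have h7 : (5 * n ^ 5) * b ≤ 460800 * (7 * (N * n ^ 2)) := by
        calc (5 * n ^ 5) * b ≤ (460800 * q) * b := Nat.mul_le_mul_right _ h4
          _ = 460800 * (q * b) := by ring
          _ ≤ 460800 * (7 * (N * n ^ 2)) := Nat.mul_le_mul_left _ hg
      have h8 : (5 * n ^ 2) * (n ^ 3 * b) ≤ (5 * n ^ 2) * (645120 * N) := by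
        calc (5 * n ^ 2) * (n ^ 3 * b) = (5 * n ^ 5) * b := by ring
          _ ≤ 460800 * (7 * (N * n ^ 2)) := h7
          _ = (5 * n ^ 2) * (645120 * N) := by ring
      exact Nat.le_of_mul_le_mul_left h8 (by positivity)
    generalize n ^ 3 * b = B at h6 ⊢
    generalize n ^ 3 * S = Y at h ⊢
    generalize n ^ 6 = W at h ⊢
    omega

/-- the certificates of the starting files -/
theorem old (i : Fin 5) (hE : Sy E) (hK : NoK4 E) : Cert V E (famM i) := by
  have h := certs i hE hK
  unfold Cert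
  rw [mul_assoc] at h ⊢
  generalize (∑ x : Fin 6 → V, XL E (famM i) x) = X at h ⊢
  generalize Fintype.card V ^ 3 * (∑ a, ∑ b, ∑ c, E a b c) = Y at h ⊢
  generalize NT E = Z at h ⊢
  generalize Fintype.card V ^ 6 = W at h ⊢
  omega

theorem XL_swap (m m' : ℕ) (x : Fin 6 → V) : XL E [m, m'] x = XL E [m', m] x := by
  have h : RelL E [m, m'] x ↔ RelL E [m', m] x := by
    unfold RelL
    refine exists_congr fun g => and_congr_right fun _ => exists_congr fun k =>
      and_congr_left fun _ => ?_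
    simp only [List.mem_cons, List.not_mem_nil, or_false]
    exact or_comm
  unfold XL
  simp only [h]

theorem cert_swap {m m' : ℕ} (h : Cert V E [m, m']) : Cert V E [m', m] := by
  unfold Cert at h ⊢
  simp only [XL_swap m' m]
  exact h

end

/-- the pairs of masks -/
def prs : List (ℕ × ℕ) := [(19, 78078), (19, 97788), (19, 228027), (3127, 11447), (3127, 78078),
  (3127, 97788), (3127, 228027), (11447, 97788), (11447, 228027), (12486, 78078), (12486, 97788),
  (12486, 228027), (32252, 77292), (32252, 78078), (32252, 97788), (32252, 122742),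
  (32252, 228027), (77054, 78078), (77054, 97788), (77054, 228027), (96747, 15614),
  (96747, 77147), (96747, 77292), (96747, 122742), (119623, 97788), (119623, 228027),
  (120663, 78078), (120663, 97788), (120663, 122742), (96747, 228027), (96747, 97788),
  (120663, 228027), (96747, 78078)]

theorem cert_prs {V : Type} [Fintype V] {E : V → V → V → ℕ} (hE : Sy E) (hK : NoK4 E) :
    ∀ p ∈ prs, Cert V E [p.1, p.2] := by
  intro p hp
  simp only [prs, List.mem_cons, List.not_mem_nil, or_false] at hp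
  rcases hp with rfl | rfl | rfl | rfl | rfl | rfl | rfl | rfl | rfl | rfl | rfl | rfl | rfl |
    rfl | rfl | rfl | rfl | rfl | rfl | rfl | rfl | rfl | rfl | rfl | rfl | rfl | rfl | rfl |
    rfl | rfl | rfl | rfl | rfl
  exacts [K00.ok.cert hE hK, K01.ok.cert hE hK, K02.ok.cert hE hK, K03.ok.cert hE hK,
    K04.ok.cert hE hK, K05.ok.cert hE hK, K06.ok.cert hE hK, K07.ok.cert hE hK,
    K08.ok.cert hE hK, K09.ok.cert hE hK, K10.ok.cert hE hK, K11.ok.cert hE hK,
    K12.ok.cert hE hK, K13.ok.cert hE hK, K14.ok.cert hE hK, K15.ok.cert hE hK,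
    K16.ok.cert hE hK, K17.ok.cert hE hK, K18.ok.cert hE hK, K19.ok.cert hE hK,
    K20.ok.cert hE hK, K21.ok.cert hE hK, K22.ok.cert hE hK, K23.ok.cert hE hK,
    K24.ok.cert hE hK, K25.ok.cert hE hK, K26.ok.cert hE hK, K27.ok.cert hE hK,
    K28.ok.cert hE hK, old 0 hE hK, old 1 hE hK, old 2 hE hK, cert_swap (old 3 hE hK)]

section
variable {n : ℕ}

/-- the sum of the indicators of the listed structures -/
theorem sum_le_copies' {H : Finset (Finset (Fin n))} {M : List ℕ}
    {Fs : List (Finset (Finset (Fin 6)))} (hM : ∀ m ∈ M, ∃ F ∈ Fs, FA.Msk m F) :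
    ∑ x : Fin 6 → Fin n, XL (tri H) M x ≤ 720 * Turan34.copies Fs H + 15 * n ^ 5 := by
  have h := FA.sum_XL_le_inj (H := H) hM
  rw [Fintype.card_fin] at h
  rw [← copies_six]
  exact h

/-- the inequality for 3-graphs -/
theorem main_ineq (H : Finset (Finset (Fin n))) (h3 : ∀ e ∈ H, e.card = 3)
    (hK : Turan34.K43Free H) : ∃ g : Fin n → Fin 3, ∀ p ∈ prs,
      ∀ Fs : List (Finset (Finset (Fin 6))), (∀ m ∈ [p.1, p.2], ∃ F ∈ Fs, FA.Msk m F) →
      n ^ 3 * (symmDiff H (Turan34.turan g)).card + 5806080000 * (n ^ 3 * H.card) ≤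
        537600000 * n ^ 6 + 418424832000 * Turan34.copies Fs H + 8717184000 * n ^ 5 := by
  have hE := tri_sy H
  have hK' := tri_noK4 h3 hK
  obtain ⟨g, hg⟩ := stab2 hE hK'
  refine ⟨g, fun p hp Fs hF => ?_⟩
  have h0 := hg _ (cert_prs hE hK' p hp)
  have h1 := six_symm_le h3 g
  have h2 := six_card_le h3
  have h4 := sum_le_copies' (H := H) hF
  rw [Fintype.card_fin] at h0
  have h5 := Nat.mul_le_mul_left (n ^ 3) h1
  have h6 := Nat.mul_le_mul_left (n ^ 3) h2
  have e5 : n ^ 3 * (6 * (symmDiff H (Turan34.turan g)).card) =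
    6 * (n ^ 3 * (symmDiff H (Turan34.turan g)).card) := by ring
  have e6 : n ^ 3 * (6 * H.card) = 6 * (n ^ 3 * H.card) := by ring
  rw [e5] at h5
  rw [e6] at h6
  omega

end
end Pool.Agent.Run7.h211.PW
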