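import Pool.Agent.Run7.h211.PW.K00
import Pool.Agent.Run7.h211.PW.K01
import Pool.Agent.Run7.h211.PW.K02
import Pool.Agent.Run7.h211.PW.K03
import Pool.Agent.Run7.h211.PW.K04
import Pool.Agent.Run7.h211.PW.K05
import Pool.Agent.Run7.h211.PW.K06
import Pool.Agent.Run7.h211.PW.K07
import Pool.Agent.Run7.h211.PW.K08
import Pool.Agent.Run7.h211.PW.K09
import Pool.Agent.Run7.h211.PW.K10
import Pool.Agent.Run7.h211.PW.K11
import Pool.Agent.Run7.h211.PW.K12
import Pool.Agent.Run7.h211.PW.K13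
import Pool.Agent.Run7.h211.PW.K14
import Pool.Agent.Run7.h211.PW.K15
import Pool.Agent.Run7.h211.PW.K16
import Pool.Agent.Run7.h211.PW.K17
import Pool.Agent.Run7.h211.PW.K18
import Pool.Agent.Run7.h211.PW.K19
import Pool.Agent.Run7.h211.PW.K20
import Pool.Agent.Run7.h211.PW.K21
import Pool.Agent.Run7.h211.PW.K22
import Pool.Agent.Run7.h211.PW.K23
import Pool.Agent.Run7.h211.PW.K24
import Pool.Agent.Run7.h211.PW.K25
import Pool.Agent.Run7.h211.PW.K26
import Pool.Agent.Run7.h211.PW.K27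
import Pool.Agent.Run7.h211.PW.K28
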